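import Pool.Agent.Lib.MP_26e62b_al.Defs
import Pool.Agent.Lib.MP_26e62b_al.Stab
import Pool.Agent.Lib.MP_26e62b_al.T6

/-!
# Surface groups act discretely and faithfully on locally compact Euclidean buildings

Answer (yes) to question Q1 of `MP_26e62b_al`. All definitions (`StdVertex`, `IsStdSimplex`,
`AffineBuilding`, `AffineBuilding.LocallyFinite`, `AffineBuilding.Aut` with its topology, `SurfaceGroup`) are
in `Pool/Agent/Lib/MP_26e62b_al/Defs.lean`.

The building is the Bruhat–Tits building of `PGL_n` over `F_2((t))`, constructed from scratch as the complex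
of homothety classes of lattices (`Cx.lean`). The surface group of genus `g` is embedded in the right-angled
Coxeter group of the cycle of length `2g+2` (`T6.lean`), which has a faithful unipotent representation over
`F_2[1/t]` for which the stabiliser of the standard vertex is trivial (`T5.lean`, `Stab.lean`).
-/

namespace Pool.Agent.Results.MP_26e62b_al.SurfaceBuilding

open MP26e62b

theorem result : ∀ g : ℕ, 2 ≤ g →
    ∃ (n : ℕ) (Y : AffineBuilding n), Y.LocallyFinite ∧
      ∃ ρ : SurfaceGroup g →* Y.Aut, Function.Injective ρ ∧ DiscreteTopology ρ.range := by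
  intro g _
  obtain ⟨φ, hφ⟩ := T6_surface g
  obtain ⟨n, ρ, hρ⟩ := T5_racg_rep (cyc g)
  refine ⟨n, YY n, YY_locallyFinite n, (actHom T7_laurent n).comp (ρ.comp φ), ?_⟩
  refine discrete_of_stab (YY n) _ (v0 n) ?_
  intro γ hγ
  have h1 := stab_trivial ρ hρ (φ γ) hγ
  exact hφ (by rw [h1, map_one])

end Pool.Agent.Results.MP_26e62b_al.SurfaceBuilding
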